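import Mathlib

open Set Filter
open Cardinal hiding univ

namespace Pool.Agent.Results.MP_fdc1ac_lc.PLessT

structure Space where
  R : Type
  V : Type
  le : R → R → Prop
  lestar : R → R → Prop
  lefin : V → V → Prop
  r : ℕ → R → V

namespace Space
variable (S : Space)

/-- the finite approximations -/
def AR : Set S.V := {a | ∃ n A, S.r n A = a}

def Init (a b : S.V) : Prop := ∃ A m n, m ≤ n ∧ a = S.r m A ∧ b = S.r n A

/-- `[a, B]` -/
def Nb (a : S.V) (B : S.R) : Set S.R := {A | S.le A B ∧ ∃ n, S.r n A = a}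

def Depth (B : S.R) (a : S.V) (n : ℕ) : Prop := IsLeast {m | S.lefin a (S.r m B)} n

structure IsTRS : Prop where
  ne : Nonempty S.R
  refl : ∀ A, S.le A A
  trans : ∀ A B C, S.le A B → S.le B C → S.le A C
  a11 : ∀ A B, S.r 0 A = S.r 0 B
  a12 : ∀ A B, A ≠ B → ∃ n, S.r n A ≠ S.r n B
  a13 : ∀ A B n m, S.r n A = S.r m B → n = m ∧ ∀ k < n, S.r k A = S.r k B
  frefl : ∀ a ∈ S.AR, S.lefin a a
  ftrans : ∀ a ∈ S.AR, ∀ b ∈ S.AR, ∀ c ∈ S.AR, S.lefin a b → S.lefin b c → S.lefin a c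
  a21 : ∀ b ∈ S.AR, {a ∈ S.AR | S.lefin a b}.Finite
  a22 : ∀ A B, S.le A B ↔ ∀ n, ∃ m, S.lefin (S.r n A) (S.r m B)
  a23 : ∀ a b, ∀ c ∈ S.AR, S.Init a b → S.lefin b c → ∃ d, S.Init d c ∧ S.lefin a d
  a31 : ∀ B, ∀ a ∈ S.AR, ∀ n, S.Depth B a n → ∀ A ∈ S.Nb (S.r n B) B, (S.Nb a A).Nonempty
  a32 : ∀ B, ∀ a ∈ S.AR, ∀ n, S.Depth B a n → ∀ A, S.le A B → (S.Nb a A).Nonempty →
    ∃ A' ∈ S.Nb (S.r n B) B, (S.Nb a A').Nonempty ∧ S.Nb a A' ⊆ S.Nb a A
  a4 : ∀ B k D n, S.Depth B (S.r k D) n → ∀ O : Set S.V, ∃ A ∈ S.Nb (S.r n B) B,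
    (∀ C ∈ S.Nb (S.r k D) A, S.r (k + 1) C ∈ O) ∨ ∀ C ∈ S.Nb (S.r k D) A, S.r (k + 1) C ∉ O
  closed : ∀ s : ℕ → S.V, (∀ N, ∃ A, ∀ n < N, s n = S.r n A) → ∃ A, ∀ n, s n = S.r n A

/-- the separative preorder of a preorder -/
def Sep {R : Type} (le : R → R → Prop) (A B : R) : Prop := ∀ C, le C A → ∃ D, le D C ∧ le D B

structure SigmaClosed : Prop where
  refl : ∀ A, S.lestar A A
  trans : ∀ A B C, S.lestar A B → S.lestar B C → S.lestar A C
  coarse : ∀ A B, S.le A B → S.lestar A B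
  sigma : ∀ A : ℕ → S.R, (∀ n, S.lestar (A (n + 1)) (A n)) → ∃ B, ∀ n, S.lestar B (A n)
  sep : ∀ A B, Sep S.le A B ↔ Sep S.lestar A B

def HasPI (F : Set S.R) : Prop := ∃ Y, ∀ X ∈ F, S.lestar Y X

def SFIP (F : Set S.R) : Prop := ∀ G ⊆ F, G.Finite → S.HasPI G

def Tower (F : Set S.R) : Prop := (∀ X ∈ F, ∀ Y ∈ F, S.lestar X Y ∨ S.lestar Y X) ∧ ¬ S.HasPI F

noncomputable def p : WithTop Cardinal := sInf {c | ∃ F, S.SFIP F ∧ ¬ S.HasPI F ∧ c = (#F : Cardinal)}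

noncomputable def t : WithTop Cardinal := sInf {c | ∃ F, S.Tower F ∧ c = (#F : Cardinal)}

end Space

abbrev P := Bool × ℕ

def ld (p q : P) : Prop := p = q ∨ p.1 = false ∧ q.1 = true ∧ q.2 ≤ p.2

abbrev E := {f : ℕ → ℕ // StrictMono f}

def rr (k : ℕ) : E ⊕ P → Set (ℕ ⊕ P × ℕ)
  | .inl f => Sum.inl '' (f.1 '' Iio k)
  | .inr q => Sum.inr '' {z | z.1 = q ∧ z.2 < k ∨ ld z.1 q ∧ z.2 + z.1.2 + 1 < k}

def le : E ⊕ P → E ⊕ P → Prop
  | .inl f, .inl g => range f.1 ⊆ range g.1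
  | .inr p, .inr q => ld p q
  | _, _ => False

def ls : E ⊕ P → E ⊕ P → Prop
  | .inl f, .inl g => (range f.1 \ range g.1).Finite
  | .inr p, .inr q => ld p q
  | _, _ => False

abbrev S0 : Space := ⟨E ⊕ P, Set (ℕ ⊕ P × ℕ), le, ls, (· ⊆ ·), rr⟩

lemma ld_refl (p : P) : ld p p := Or.inl rfl

lemma ld_trans {p q s : P} (h : ld p q) (h' : ld q s) : ld p s := by
  rcases h with rfl | h
  · exact h'
  rcases h' with rfl | h'
  · exact Or.inr h
  · simp [h.2.1] at h'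

lemma le_rf (A : E ⊕ P) : le A A := by
  rcases A with f | p
  exacts [Subset.rfl, ld_refl p]

lemma le_tr : ∀ A B C, le A B → le B C → le A C := by
  rintro (f | p) (g | q) (h | s) a b <;> simp only [le] at a b ⊢
  exacts [a.trans b, ld_trans a b]

lemma ls_tr : ∀ A B C, ls A B → ls B C → ls A C := by
  rintro (f | p) (g | q) (h | s) a b <;> simp only [ls] at a b ⊢
  · exact (a.union b).subset fun x hx => (em (x ∈ range g.1)).elim
      (fun e => Or.inr ⟨e, hx.2⟩) fun e => Or.inl ⟨hx.1, e⟩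
  · exact ld_trans a b

lemma coarse : ∀ A B, le A B → ls A B := by
  rintro (f | p) (g | q) a <;> simp only [le, ls] at a ⊢
  exacts [by simp [sdiff_eq_empty.2 a], a]

lemma rr0 (A : E ⊕ P) : rr 0 A = ∅ := by
  rcases A with f | p <;> simp [rr]

lemma rr_mono (A : E ⊕ P) {k l : ℕ} (h : k ≤ l) : rr k A ⊆ rr l A := by
  rcases A with f | p
  · exact image_mono (image_mono (Iio_subset_Iio h))
  · exact image_mono fun z hz => hz.imp (fun a => ⟨a.1, by omega⟩) fun a => ⟨a.1, by omega⟩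

lemma rr_fin (k : ℕ) (A : E ⊕ P) : (rr k A).Finite := by
  rcases A with f | p
  · exact ((finite_Iio k).image _).image _
  · refine Set.Finite.image _ (((finite_univ.prod (finite_Iio (k + p.2 + 1))).prod
      (finite_Iio k)).subset ?_)
    rintro ⟨⟨b, m⟩, j⟩ (⟨rfl, h⟩ | ⟨-, h⟩) <;> simp at h ⊢ <;> omega

lemma subE {k n : ℕ} {X : E ⊕ P} {g : E} (hk : 0 < k) (h : rr k X ⊆ rr n (.inl g)) :
    ∃ d, X = .inl d ∧ d.1 '' Iio k ⊆ g.1 '' Iio n := by
  rcases X with d | p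
  · exact ⟨d, rfl, (image_subset_image_iff Sum.inl_injective).1 h⟩
  · simpa [rr] using h ⟨(p, 0), Or.inl ⟨rfl, hk⟩, rfl⟩

lemma subP {k n : ℕ} {X : E ⊕ P} {q : P} (hk : 0 < k) (h : rr k X ⊆ rr n (.inr q)) :
    ∃ p, X = .inr p ∧ ld p q ∧ (p = q → k ≤ n) := by
  rcases X with d | p
  · simpa [rr] using h ⟨d.1 0, ⟨0, hk, rfl⟩, rfl⟩
  · obtain ⟨z, h1, h2⟩ := h ⟨(p, k - 1), Or.inl ⟨rfl, by simp only; omega⟩, rfl⟩
    obtain rfl := Sum.inr_injective h2
    refine ⟨p, rfl, h1.elim (fun a => Or.inl a.1) fun a => a.1, fun _ => ?_⟩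
    rcases h1 with a | a <;> simp only at a <;> omega

lemma eqP {k n : ℕ} {X : E ⊕ P} {q : P} (hk : 0 < k) (h : rr n X = rr k (.inr q)) :
    X = .inr q ∧ n = k := by
  have hn : 0 < n := Nat.pos_of_ne_zero fun e => by
    have : (.inr (q, 0) : ℕ ⊕ P × ℕ) ∈ rr n X := h ▸ ⟨(q, 0), Or.inl ⟨rfl, hk⟩, rfl⟩
    simp [e, rr0] at this
  obtain ⟨p, rfl, a1, a2⟩ := subP hn h.le
  obtain ⟨_, e, b1, b2⟩ := subP hk h.ge
  obtain rfl := Sum.inr_injective e
  have : p = q := a1.elim id fun a => b1.elim Eq.symm fun b => by simp [a.1] at b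
  exact ⟨by rw [this], le_antisymm (a2 this) (b2 this.symm)⟩

lemma eqE {f g : E} {n m : ℕ} (h : rr n (.inl f) = rr m (.inl g)) :
    n = m ∧ ∀ i < n, f.1 i = g.1 i := by
  have h1 : f.1 '' Iio n = g.1 '' Iio m := Sum.inl_injective.image_injective h
  obtain rfl : n = m := by
    simpa [ncard_image_of_injective _ f.2.injective, ncard_image_of_injective _ g.2.injective]
      using congrArg ncard h1
  refine ⟨rfl, fun i => Nat.strong_induction_on i fun i ih hi => ?_⟩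
  obtain ⟨j, j1, j2⟩ : f.1 i ∈ g.1 '' Iio n := h1 ▸ ⟨i, hi, rfl⟩
  obtain ⟨l, l1, l2⟩ : g.1 i ∈ f.1 '' Iio n := h1 ▸ ⟨i, hi, rfl⟩
  have a : i ≤ j := not_lt.1 fun e => e.ne (f.2.injective ((ih j e j1).trans j2))
  have b : i ≤ l := not_lt.1 fun e => e.ne (g.2.injective ((ih l e l1).symm.trans l2))
  exact le_antisymm (l2 ▸ f.2.monotone b) (j2 ▸ g.2.monotone a)

lemma rr_congr {f g : E} {n : ℕ} (h : ∀ i < n, f.1 i = g.1 i) : rr n (.inl f) = rr n (.inl g) :=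
  congrArg (Sum.inl '' ·) (image_congr h)

lemma a13 : ∀ A B n m, rr n A = rr m B → n = m ∧ ∀ k < n, rr k A = rr k B := by
  intro A B n m h
  rcases B with g | q
  · rcases A with f | p
    · exact ⟨(eqE h).1, fun k hk => rr_congr fun i hi => (eqE h).2 i (hi.trans hk)⟩
    · rcases n.eq_zero_or_pos with rfl | hn
      · exact ⟨(eqE (f := g) (by rw [← h, rr0, rr0])).1, by simp⟩
      · simpa using (eqP hn h.symm).1
  · rcases m.eq_zero_or_pos with rfl | hm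
    · obtain rfl : n = 0 := Nat.eq_zero_of_not_pos fun hn => by
        obtain ⟨p, rfl, -⟩ := subP hn h.le
        exact hn.ne (eqP hn h.symm).2
      simp
    · exact ⟨(eqP hm h).2, fun k _ => by rw [(eqP hm h).1]⟩

lemma glue (g h : E) (n : ℕ) (e : ∀ i < n, g.1 i < h.1 0) : ∃ f : E, (∀ i < n, f.1 i = g.1 i) ∧
    range f.1 ⊆ g.1 '' Iio n ∪ range h.1 := by
  refine ⟨⟨fun i => if i < n then g.1 i else h.1 (i - n), fun a b hab => ?_⟩,
    fun i hi => if_pos hi, ?_⟩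
  · simp only
    split_ifs with p q q
    exacts [g.2 hab, (e a p).trans_le (h.2.monotone (Nat.zero_le _)), by omega, h.2 (by omega)]
  · rintro _ ⟨i, rfl⟩
    simp only
    split_ifs with p
    exacts [Or.inl ⟨i, p, rfl⟩, Or.inr ⟨_, rfl⟩]

def shift (f : E) (n : ℕ) : E := ⟨fun i => f.1 (n + i), fun _ _ h => f.2 (by omega)⟩

lemma a31 (B D : E ⊕ P) (k n : ℕ) (h : rr k D ⊆ rr n B) (A : E ⊕ P) (hA : A ∈ S0.Nb (rr n B) B) :
    (S0.Nb (rr k D) A).Nonempty := by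
  rcases k.eq_zero_or_pos with rfl | hk
  · exact ⟨A, le_rf A, 0, (rr0 _).trans (rr0 _).symm⟩
  obtain ⟨-, m, e⟩ := hA
  replace h : rr k D ⊆ rr m A := h.trans (Eq.ge e)
  rcases A with f | q
  · obtain ⟨d, rfl, h1⟩ := subE hk h
    obtain ⟨c, c1, c2⟩ := glue d (shift f m) k fun i hi => by
      obtain ⟨j, j1, j2⟩ := h1 ⟨i, hi, rfl⟩
      exact j2 ▸ f.2 j1
    refine ⟨.inl c, c2.trans (union_subset (h1.trans (image_subset_range _ _)) ?_), k, rr_congr c1⟩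
    rintro _ ⟨i, rfl⟩
    exact ⟨_, rfl⟩
  · obtain ⟨p, rfl, h1, -⟩ := subP hk h
    exact ⟨.inr p, h1, k, rfl⟩

lemma low {g c : E} {k n i j : ℕ} (h : S0.Depth (.inl g) (rr k (.inl c)) n) (hj : j < n)
    (e : c.1 i = g.1 j) : i < k := by
  by_contra hi
  have : n ≤ j := h.2 (image_mono (by
    rintro _ ⟨l, l1, rfl⟩
    obtain ⟨a, -, a2⟩ := (image_subset_image_iff Sum.inl_injective).1 h.1 ⟨l, l1, rfl⟩
    refine ⟨a, g.2.lt_iff_lt.1 ?_, a2⟩
    rw [a2, ← e]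
    exact c.2 (lt_of_lt_of_le l1 (not_lt.1 hi))))
  omega

lemma leE {A : E ⊕ P} {g : E} (h : le A (.inl g)) : ∃ f, A = .inl f := by
  rcases A with f | p
  exacts [⟨f, rfl⟩, h.elim]

lemma leP {A : E ⊕ P} {q : P} (h : le A (.inr q)) : ∃ p, A = .inr p := by
  rcases A with f | p
  exacts [h.elim, ⟨p, rfl⟩]

lemma dep0 {B D : E ⊕ P} {n : ℕ} (h : S0.Depth B (rr 0 D) n) : n = 0 :=
  Nat.le_zero.1 (h.2 (show rr 0 D ⊆ rr 0 B by simp [rr0]))

lemma trs : S0.IsTRS where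
  ne := ⟨.inr (true, 0)⟩
  refl := le_rf
  trans := le_tr
  a11 A B := (rr0 A).trans (rr0 B).symm
  a12 A B h := by
    by_contra hc
    push Not at hc
    rcases B with g | q
    · obtain ⟨f, rfl, -⟩ := subE one_pos (hc 1).le
      exact h (congrArg _ (Subtype.ext (funext fun i => (eqE (hc (i + 1))).2 i (by omega))))
    · exact h (eqP one_pos (hc 1)).1
  a13 := a13
  frefl _ _ := Subset.rfl
  ftrans _ _ _ _ _ _ := Subset.trans
  a21 := by
    rintro _ ⟨n, A, rfl⟩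
    exact (rr_fin n A).finite_subsets.subset fun a ha => ha.2
  a22 A B := by
    constructor
    · intro h n
      rcases A with f | p <;> rcases B with g | q <;> simp only [le] at h
      · refine ⟨f.1 n, image_mono ?_⟩
        rintro _ ⟨i, hi, rfl⟩
        obtain ⟨j, e⟩ := h ⟨i, rfl⟩
        exact ⟨j, lt_of_le_of_lt g.2.le_apply (e ▸ f.2 hi), e⟩
      · refine ⟨n + p.2 + 1, image_mono ?_⟩
        rintro z (⟨a, b⟩ | ⟨a, b⟩)
        exacts [Or.inr ⟨a ▸ h, by rw [a]; omega⟩, Or.inr ⟨ld_trans a h, by omega⟩]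
    · intro h
      obtain ⟨m, hm⟩ := h 1
      rcases B with g | q
      · obtain ⟨f, rfl, -⟩ := subE one_pos hm
        rintro _ ⟨i, rfl⟩
        obtain ⟨l, hl⟩ := h (i + 1)
        exact image_subset_range _ _ ((image_subset_image_iff Sum.inl_injective).1 hl
          ⟨i, Nat.lt_succ_self i, rfl⟩)
      · obtain ⟨p, rfl, a, -⟩ := subP one_pos hm
        exact a
  a23 := by
    rintro _ _ _ ⟨l, C, rfl⟩ ⟨A, m, n, h, rfl, rfl⟩ e
    exact ⟨_, ⟨C, l, l, le_rfl, rfl, rfl⟩, (rr_mono A h).trans e⟩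
  a31 := by
    rintro B _ ⟨k, D, rfl⟩ n h
    exact a31 B D k n h.1
  a32 := by
    rintro B _ - n h A hA ⟨D, d1, k, rfl⟩
    suffices ∃ A' ∈ S0.Nb (rr n B) B, S0.Nb (rr k D) A' ⊆ S0.Nb (rr k D) A from
      this.imp fun A' a => ⟨a.1, a31 B D k n h.1 A' a.1, a.2⟩
    rcases k.eq_zero_or_pos with rfl | hk
    · obtain rfl := dep0 h
      exact ⟨A, ⟨hA, 0, (rr0 _).trans (rr0 _).symm⟩, Subset.rfl⟩
    rcases B with g | q
    · obtain ⟨f, rfl⟩ := leE hA
      obtain ⟨d, rfl⟩ := leE d1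
      obtain ⟨a, a1, a2⟩ := glue g (shift f (g.1 n)) n fun i hi =>
        (g.2 hi).trans_le f.2.le_apply
      have a3 : range (shift f (g.1 n)).1 ⊆ range f.1 := by
        rintro _ ⟨i, rfl⟩
        exact ⟨_, rfl⟩
      refine ⟨.inl a, ⟨a2.trans (union_subset (image_subset_range _ _) (a3.trans hA)), n,
        rr_congr a1⟩, fun C ⟨c1, l, c2⟩ => ⟨?_, l, c2⟩⟩
      obtain ⟨c, rfl⟩ := leE c1
      replace c2 : rr l (.inl c) = rr k (.inl d) := c2
      obtain ⟨rfl, c3⟩ := eqE c2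
      rintro _ ⟨i, rfl⟩
      rcases a2 (c1 ⟨i, rfl⟩) with ⟨j, j1, j2⟩ | e
      · exact d1 ⟨i, (c3 i (low (c2 ▸ h) j1 j2.symm)).symm⟩
      · exact a3 e
    · obtain ⟨p, rfl, -⟩ := subP hk h.1
      exact ⟨.inr q, ⟨ld_refl q, n, rfl⟩, fun C ⟨_, l, c2⟩ => ⟨(eqP hk c2).1 ▸ d1, l, c2⟩⟩
  a4 B k D n h O := by
    rcases B with g | q
    · obtain ⟨φ, p1, p2⟩ : ∃ φ : ℕ → ℕ, StrictMono φ ∧
          ((∀ j, insert (.inl (g.1 (n + φ j))) (rr k D) ∈ O) ∨
            ∀ j, insert (.inl (g.1 (n + φ j))) (rr k D) ∉ O) := by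
        rcases frequently_or_distrib.1 (Frequently.of_forall (f := atTop) fun j : ℕ =>
          em (insert (.inl (g.1 (n + j))) (rr k D) ∈ O)) with e | e
        · exact (extraction_of_frequently_atTop e).imp fun φ a => ⟨a.1, Or.inl a.2⟩
        · exact (extraction_of_frequently_atTop e).imp fun φ a => ⟨a.1, Or.inr a.2⟩
      obtain ⟨a, a1, a2⟩ := glue g ⟨_, (shift g n).2.comp p1⟩ n fun i hi => g.2 (by omega)
      refine ⟨.inl a, ⟨a2.trans (union_subset (image_subset_range _ _) ?_), n, rr_congr a1⟩, ?_⟩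
      · rintro _ ⟨i, rfl⟩
        exact ⟨_, rfl⟩
      have : ∀ C ∈ S0.Nb (rr k D) (.inl a), ∃ j, rr (k + 1) C =
          insert (.inl (g.1 (n + φ j))) (rr k D) := fun C ⟨c1, l, c2⟩ => by
        obtain ⟨c, rfl⟩ := leE c1
        replace c2 : rr l (.inl c) = rr k D := c2
        obtain rfl := (a13 _ _ _ _ c2).1
        rcases a2 (c1 ⟨l, rfl⟩) with ⟨j, j1, j2⟩ | ⟨j, e⟩
        · exact absurd (low (c2 ▸ h) j1 j2.symm) (lt_irrefl _)
        · refine ⟨j, ?_⟩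
          rw [← show rr l (.inl c) = rr l D from c2, show g.1 (n + φ j) = c.1 l from e]
          simp only [rr, ← image_insert_eq]
          congr 2
          ext x
          simp [le_iff_eq_or_lt]
      exact p2.imp (fun e C hC => (this C hC).elim fun j b =>
        show rr (k + 1) C ∈ O from Eq.symm b ▸ e j)
        fun e C hC => (this C hC).elim fun j b => show rr (k + 1) C ∉ O from Eq.symm b ▸ e j
    suffices ∃ A ∈ S0.Nb (rr n (.inr q)) (.inr q), ∃ X, ∀ C ∈ S0.Nb (rr k D) A, C = X by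
      obtain ⟨A, a1, X, a2⟩ := this
      exact ⟨A, a1, (em (rr (k + 1) X ∈ O)).imp (fun e C c => a2 C c ▸ e) fun e C c => a2 C c ▸ e⟩
    rcases k.eq_zero_or_pos with rfl | hk
    · obtain rfl := dep0 h
      refine ⟨.inr (false, q.2), ⟨?_, 0, (rr0 (.inr _)).trans (rr0 _).symm⟩, .inr (false, q.2),
        fun C ⟨c1, _⟩ => ?_⟩
      · obtain ⟨_ | _, m⟩ := q
        exacts [Or.inl rfl, Or.inr ⟨rfl, rfl, le_rfl⟩]
      · obtain ⟨p, rfl⟩ := leP c1
        exact c1.elim (congrArg _) fun e => by simp at e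
    · obtain ⟨p, rfl, -⟩ := subP hk h.1
      exact ⟨.inr q, ⟨ld_refl q, n, rfl⟩, .inr p, fun C ⟨_, l, c2⟩ => (eqP hk c2).1⟩
  closed s h := by
    choose A hA using h
    have e : ∀ N M n, n < N → n < M → rr n (A N) = rr n (A M) := fun N M n a b =>
      (hA N n a).symm.trans (hA M n b)
    rcases h2 : A 2 with g | q
    · have : ∀ N, ∃ f, A (N + 2) = .inl f := fun N =>
        (subE one_pos (h2 ▸ e (N + 2) 2 1 (by omega) (by omega)).le).imp fun _ a => a.1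
      choose f hf using this
      have e2 : ∀ N i, i ≤ N → (f i).1 i = (f N).1 i := fun N i hi =>
        (eqE (hf i ▸ hf N ▸ e (i + 2) (N + 2) (i + 1) (by omega) (by omega))).2 i (by omega)
      refine ⟨.inl ⟨fun i => (f i).1 i, strictMono_nat_of_lt_succ fun i => ?_⟩, fun n => ?_⟩
      · rw [e2 (i + 1) i (by omega)]
        exact (f _).2 (by omega)
      · rw [hA (n + 2) n (by omega), hf]
        exact rr_congr fun i hi => (e2 n i hi.le).symm
    · refine ⟨.inr q, fun n => ?_⟩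
      have e3 := e (n + 2) 2 1 (by omega) (by omega)
      rw [h2] at e3
      rw [hA (n + 2) n (by omega), (eqP one_pos e3).1]

lemma enum {s : Set ℕ} (h : s.Infinite) : ∃ f : E, range f.1 = s :=
  ⟨⟨_, Nat.nth_strictMono h⟩, Nat.range_nth_of_infinite h⟩

lemma meet : ∀ C A, ls C A → ∃ D, le D C ∧ le D A := by
  rintro (f | p) (g | q) a <;> simp only [ls] at a
  · obtain ⟨d, hd⟩ := enum ((infinite_range_of_injective f.2.injective).sdiff a)
    refine ⟨.inl d, hd.le.trans sdiff_subset, hd.le.trans fun x hx => ?_⟩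
    by_contra e
    exact hx.2 ⟨hx.1, e⟩
  · exact ⟨.inr p, ld_refl p, a⟩

lemma sc : S0.SigmaClosed where
  refl A := coarse _ _ (le_rf A)
  trans := ls_tr
  coarse := coarse
  sigma A h := by
    have hm : ∀ n m, n ≤ m → ls (A m) (A n) := fun n m e => by
      induction m, e using Nat.le_induction with
      | base => exact coarse _ _ (le_rf _)
      | succ m _ ih => exact ls_tr _ _ _ (h m) ih
    rcases h0 : A 0 with g | q
    · have : ∀ n, ∃ f, A n = .inl f := fun n => by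
        have := h0 ▸ hm 0 n n.zero_le
        rcases h1 : A n with f | p
        exacts [⟨f, rfl⟩, (h1 ▸ this).elim]
      choose f hf using this
      obtain ⟨φ, p1, p2⟩ := extraction_forall_of_frequently
        (P := fun n x => ∀ i ≤ n, x ∈ range (f i).1) fun n => by
          rw [Nat.frequently_atTop_iff_infinite]
          refine ((infinite_range_of_injective (f n).2.injective).sdiff ((finite_Iic n).biUnion
            fun i hi => show ls (.inl (f n)) (.inl (f i)) from hf n ▸ hf i ▸ hm i n hi)).mono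
            fun x hx i hi => ?_
          by_contra e
          exact hx.2 (mem_biUnion (mem_Iic.2 hi) ⟨hx.1, e⟩)
      refine ⟨.inl ⟨φ, p1⟩, fun n => hf n ▸ ((finite_Iio n).image φ).subset ?_⟩
      rintro _ ⟨⟨i, rfl⟩, e⟩
      exact ⟨i, not_le.1 fun a => e (p2 i n a), rfl⟩
    · have : ∀ n, ∃ p, A n = .inr p := fun n => by
        have := h0 ▸ hm 0 n n.zero_le
        rcases h1 : A n with f | p
        exacts [(h1 ▸ this).elim, ⟨p, rfl⟩]
      choose p hp using this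
      have hl : ∀ n m, n ≤ m → ld (p m) (p n) := fun n m e =>
        show ls (.inr (p m)) (.inr (p n)) from hp m ▸ hp n ▸ hm n m e
      by_cases e : ∃ N, (p N).1 = false
      · obtain ⟨N, e⟩ := e
        refine ⟨.inr (p N), fun n => hp n ▸ (le_total n N).elim (hl n N) fun a => ?_⟩
        exact (hl N n a).elim (fun b => Or.inl b.symm) fun b => by simp [e] at b
      · exact ⟨.inr (p 0), fun n => hp n ▸ (hl 0 n n.zero_le).elim (fun b => Or.inl b.symm)
          fun b => (e ⟨n, b.1⟩).elim⟩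
  sep A B := by
    constructor
    · intro h C hC
      obtain ⟨D, d1, d2⟩ := meet C A hC
      obtain ⟨G, g1, g2⟩ := h D d2
      exact ⟨G, coarse _ _ (le_tr _ _ _ g1 d1), coarse _ _ g2⟩
    · intro h C hC
      obtain ⟨D, d1, d2⟩ := h C (coarse _ _ hC)
      obtain ⟨G, g1, g2⟩ := meet D C d1
      obtain ⟨H, h1, h2⟩ := meet G B (ls_tr _ _ _ (coarse _ _ g1) d2)
      exact ⟨H, le_tr _ _ _ h1 g2, h2⟩

lemma tower_big {F : Set (E ⊕ P)} (h : S0.Tower F) : ℵ₀ < #F := by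
  classical
  by_contra hc
  rcases F.eq_empty_or_nonempty with rfl | hn
  · exact h.2 ⟨.inr (true, 0), by simp⟩
  obtain ⟨g, rfl⟩ := (le_aleph0_iff_set_countable.1 (not_lt.1 hc)).exists_eq_range hn
  have : ∀ (n : ℕ) (X : range g), ∃ Y : range g, ls Y.1 X.1 ∧ ls Y.1 (g n) := fun n X =>
    (h.1 X X.2 _ ⟨n, rfl⟩).elim (fun e => ⟨X, sc.refl _, e⟩) fun e => ⟨⟨_, n, rfl⟩, e, sc.refl _⟩
  choose nx n1 n2 using this
  let A : ℕ → range g := fun k => Nat.rec ⟨_, 0, rfl⟩ nx k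
  obtain ⟨B, hB⟩ := sc.sigma (fun k => (A k).1) fun k => n1 k (A k)
  exact h.2 ⟨B, by
    rintro _ ⟨n, rfl⟩
    exact ls_tr _ _ _ (hB (n + 1)) (n2 n (A n))⟩

lemma tower_ex : ∃ F, S0.Tower F := by
  obtain ⟨M, m1, m2⟩ := (show IsChain ls {.inl ⟨id, strictMono_id⟩} from
    pairwise_singleton _ _).exists_maxChain
  refine ⟨M, fun X a Y b => (eq_or_ne X Y).elim (fun e => Or.inl (e ▸ sc.refl X)) (m1.1 a b),
    fun ⟨Y, hY⟩ => ?_⟩
  rcases Y with y | p
  swap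
  · exact hY _ (m2 rfl)
  let z : E := ⟨fun i => y.1 (2 * i), fun a b h => y.2 (by omega)⟩
  have hz : ls (.inl z) (.inl y) := coarse _ _ (by
    rintro _ ⟨i, rfl⟩
    exact ⟨_, rfl⟩)
  have : (.inl z : E ⊕ P) ∈ M := m1.2 (m1.1.insert fun X a _ =>
    Or.inl (ls_tr _ _ _ hz (hY X a))) (subset_insert _ _) ▸ mem_insert _ _
  have hf : (range y.1 \ range z.1).Finite := hY _ this
  refine infinite_of_injective_forall_mem (s := range y.1 \ range z.1)
    (f := fun i => y.1 (2 * i + 1)) (fun a b h => by have := y.2.injective h; omega)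
    (fun i => ⟨⟨_, rfl⟩, fun ⟨j, e⟩ => ?_⟩) hf
  have := y.2.injective e
  omega

theorem result : ∃ S : Space, S.IsTRS ∧ S.SigmaClosed ∧ S.p < S.t ∧ S.t < ⊤ := by
  obtain ⟨T, hT⟩ := tower_ex
  refine ⟨S0, trs, sc, lt_of_le_of_lt (sInf_le ⟨range fun n => .inr (true, n), fun G g1 g2 => ?_,
    fun ⟨Y, hY⟩ => ?_, rfl⟩) (lt_of_lt_of_le (WithTop.coe_lt_coe.2 (lt_of_le_of_lt
      (countable_range _).le_aleph0 (Order.lt_succ _))) (le_sInf ?_)),
    lt_of_le_of_lt (sInf_le ⟨T, hT, rfl⟩) (WithTop.coe_lt_top _)⟩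
  · obtain ⟨N, hN⟩ := (g2.preimage (f := fun n : ℕ => (.inr (true, n) : E ⊕ P))
      (fun a _ b _ e => by simpa using e)).bddAbove
    refine ⟨.inr (false, N), fun X hX => ?_⟩
    obtain ⟨n, rfl⟩ := g1 hX
    exact Or.inr ⟨rfl, rfl, hN hX⟩
  · rcases Y with y | p
    · exact hY _ ⟨0, rfl⟩
    · rcases hY _ ⟨p.2 + 1, rfl⟩ with e | e
      · simpa using congrArg Prod.snd e
      · simp at e
  · rintro _ ⟨F, hF, rfl⟩
    exact WithTop.coe_le_coe.2 (Order.succ_le_of_lt (tower_big hF))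

end Pool.Agent.Results.MP_fdc1ac_lc.PLessT
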